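import Mathlib
import Pool.Agent.W566.MZ.Stmts

set_option autoImplicit false

namespace Pool.Agent.W462.MZSZ

/-- conjugation on the elements of `P` outside `D` -/
abbrev Al {Q : Type} [Group Q] (P D : Subgroup Q) : Type := {x : Q // x ∈ P ∧ x ∉ D}

/-- a subgroup acts by conjugation -/
def act {Q : Type} [Group Q] (P D : Subgroup Q) (hP : P.Normal) (hD : D.Normal) (H : Subgroup Q) :
    MulAction H (Al P D) where
  smul h x := ⟨(h : Q) * x.1 * (h : Q)⁻¹, hP.conj_mem _ x.2.1 _, fun hx => x.2.2 (by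
    have := hD.conj_mem _ hx ((h : Q)⁻¹)
    have e : (h : Q)⁻¹ * ((h : Q) * x.1 * (h : Q)⁻¹) * ((h : Q)⁻¹)⁻¹ = x.1 := by group
    rwa [e] at this)⟩
  one_smul x := Subtype.ext (by
    show ((1 : H) : Q) * x.1 * (((1 : H) : Q))⁻¹ = x.1
    simp)
  mul_smul a b x := Subtype.ext (by
    show ((a * b : H) : Q) * x.1 * ((a * b : H) : Q)⁻¹ = (a : Q) * ((b : Q) * x.1 * (b : Q)⁻¹) * (a : Q)⁻¹
    rw [Subgroup.coe_mul]
    group)

/-- the finite case -/
theorem finite_case {Q : Type} [Group Q] [Finite Q] (P D : Subgroup Q) (hP : P.Normal)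
    (hD : D.Normal) (hDP : D ≤ P) (e f : ℕ) (hcP : Nat.card P = 2 ^ f)
    (hcD : Nat.card D * 2 = 2 ^ f) (hi : P.index = 3 ^ e) :
    ∃ (H : Subgroup Q) (s : Q), Subgroup.IsComplement' P H ∧ s ∈ P ∧ s ∉ D ∧
      ∀ h ∈ H, h * s = s * h := by
  haveI := hP
  have hcop : Nat.Coprime (Nat.card P) P.index := by
    rw [hcP, hi]
    exact Nat.Coprime.pow _ _ (by norm_num)
  obtain ⟨H, hH⟩ := Subgroup.exists_right_complement'_of_coprime hcop
  haveI : Fact (Nat.Prime 3) := ⟨Nat.prime_three⟩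
  have hcH : Nat.card H = 3 ^ e := by
    rw [← hi]
    exact hH.symm.index_eq_card.symm
  have hpH : IsPGroup 3 H := IsPGroup.of_card hcH
  letI := act P D hP hD H
  have hcard : Nat.card (Al P D) = Nat.card D := by
    have h1 : Nat.card P = Nat.card D + Nat.card (Al P D) := by
      have e1 : Nat.card (P : Set Q) = Nat.card (D : Set Q) + Nat.card ((P : Set Q) \ (D : Set Q) : Set Q) := by
        simp only [Nat.card_coe_set_eq]
        rw [Set.ncard_sdiff (s := (D : Set Q)) hDP]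
        have := Set.ncard_le_ncard (s := (D : Set Q)) (t := (P : Set Q)) hDP
        omega
      exact e1
    rw [hcP] at h1
    omega
  have hnd : ¬ 3 ∣ Nat.card (Al P D) := by
    rw [hcard]
    intro h
    have h1 : 3 ∣ 2 ^ f := h.trans ⟨2, hcD.symm⟩
    have h2 := Nat.Prime.dvd_of_dvd_pow Nat.prime_three h1
    omega
  obtain ⟨s, hs⟩ := hpH.nonempty_fixed_point_of_prime_not_dvd_card (Al P D) hnd
  refine ⟨H, s.1, hH, s.2.1, s.2.2, ?_⟩
  intro h hh
  have h1 := congrArg Subtype.val (hs ⟨h, hh⟩)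
  have h2 : h * s.1 * h⁻¹ = s.1 := h1
  calc h * s.1 = (h * s.1 * h⁻¹) * h := by group
    _ = s.1 * h := by rw [h2]

theorem StmSZ : MZ.StmSZ := by
  intro G _ _ _ _ _ P D hP hPo hD hDo hDP h2 ⟨e, he⟩ hN
  haveI := hP
  haveI := hD
  have hkP : ∀ g : G, g ∈ P ↔ (QuotientGroup.mk' P) g = 1 := fun g => by
    rw [← MonoidHom.mem_ker, QuotientGroup.ker_mk']
  -- index of the compatible system
  let I : Type := {U : Subgroup G // U.Normal ∧ IsOpen (U : Set G) ∧ U ≤ D}
  haveI : Nonempty I := ⟨⟨D, hD, hDo, le_rfl⟩⟩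
  let C : I → Set ((G ⧸ P → G) × G) := fun U => {y |
    (∀ x : G ⧸ P, (Quotient.out x)⁻¹ * y.1 x ∈ P) ∧
    (∀ x x' : G ⧸ P, y.1 (x * x') * (y.1 x * y.1 x')⁻¹ ∈ U.1) ∧
    y.2 ∈ P ∧ y.2 ∉ D ∧ ∀ x : G ⧸ P, (y.1 x * y.2) * (y.2 * y.1 x)⁻¹ ∈ U.1}
  have hcl : ∀ H : Subgroup G, IsOpen (H : Set G) → IsClosed (H : Set G) := fun H hH =>
    Subgroup.isClosed_of_isOpen H hH
  have hCclosed : ∀ U, IsClosed (C U) := by
    intro U
    have c1 : ∀ x : G ⧸ P, Continuous (fun y : (G ⧸ P → G) × G => y.1 x) := fun x =>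
      (continuous_apply x).comp continuous_fst
    have a1 : IsClosed {y : (G ⧸ P → G) × G | ∀ x : G ⧸ P, (Quotient.out x)⁻¹ * y.1 x ∈ P} := by
      rw [Set.setOf_forall]
      exact isClosed_iInter fun x => (hcl P hPo).preimage (continuous_const.mul (c1 x))
    have a2 : IsClosed {y : (G ⧸ P → G) × G |
        ∀ x x' : G ⧸ P, y.1 (x * x') * (y.1 x * y.1 x')⁻¹ ∈ U.1} := by
      simp only [Set.setOf_forall]
      exact isClosed_iInter fun x => isClosed_iInter fun x' =>
        (hcl U.1 U.2.2.1).preimage ((c1 _).mul ((c1 x).mul (c1 x')).inv)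
    have a3 : IsClosed {y : (G ⧸ P → G) × G | y.2 ∈ P} := (hcl P hPo).preimage continuous_snd
    have a4 : IsClosed {y : (G ⧸ P → G) × G | y.2 ∉ D} :=
      (hDo.isClosed_compl).preimage continuous_snd
    have a5 : IsClosed {y : (G ⧸ P → G) × G |
        ∀ x : G ⧸ P, (y.1 x * y.2) * (y.2 * y.1 x)⁻¹ ∈ U.1} := by
      simp only [Set.setOf_forall]
      exact isClosed_iInter fun x => (hcl U.1 U.2.2.1).preimage
        (((c1 x).mul continuous_snd).mul (continuous_snd.mul (c1 x)).inv)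
    exact a1.inter (a2.inter (a3.inter (a4.inter a5)))
  have hdir : Directed (· ⊇ ·) C := by
    intro U V
    refine ⟨⟨U.1 ⊓ V.1, ?_, U.2.2.1.inter V.2.2.1, inf_le_left.trans U.2.2.2⟩, ?_, ?_⟩
    · haveI := U.2.1
      haveI := V.2.1
      infer_instance
    · rintro y ⟨b1, b2, b3, b4, b5⟩
      exact ⟨b1, fun x x' => (b2 x x').1, b3, b4, fun x => (b5 x).1⟩
    · rintro y ⟨b1, b2, b3, b4, b5⟩
      exact ⟨b1, fun x x' => (b2 x x').2, b3, b4, fun x => (b5 x).2⟩
  have hne : ∀ U, (C U).Nonempty := by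
    rintro ⟨U, hUn, hUo, hUD⟩
    haveI := hUn
    haveI : Finite (G ⧸ U) := Subgroup.quotient_finite_of_isOpen U hUo
    have hUP : U ≤ P := hUD.trans hDP
    obtain ⟨f, hf⟩ := hN U hUn hUo hUP
    set π := QuotientGroup.mk' U with hπ
    have hker : π.ker = U := QuotientGroup.ker_mk' U
    have hsurj : Function.Surjective π := QuotientGroup.mk'_surjective U
    have hcP : Nat.card (P.map π) = 2 ^ f := by
      rw [← Subgroup.relIndex_ker, hker, hf]
    have hcD : Nat.card (D.map π) * 2 = 2 ^ f := by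
      have h3 := Subgroup.relIndex_mul_relIndex U D P hUD hDP
      rw [h2, hf] at h3
      rw [← Subgroup.relIndex_ker, hker]
      exact h3
    have hcomapP : (P.map π).comap π = P := by
      rw [Subgroup.comap_map_eq, hker]
      exact sup_eq_left.2 hUP
    have hcomapD : (D.map π).comap π = D := by
      rw [Subgroup.comap_map_eq, hker]
      exact sup_eq_left.2 hUD
    have hmP : ∀ g, g ∈ P ↔ π g ∈ P.map π := fun g => by
      conv_lhs => rw [← hcomapP]
      rfl
    have hi : (P.map π).index = 3 ^ e := by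
      rw [← Subgroup.index_comap_of_surjective _ hsurj, hcomapP, ← he]
      rfl
    obtain ⟨H, s, hH, hsP, hsD, hcomm⟩ := finite_case (P.map π) (D.map π)
      (hP.map π hsurj) (hD.map π hsurj) (Subgroup.map_mono hDP) e f hcP hcD hi
    -- lifts
    have hlift : ∀ x : G ⧸ P, ∃ g : G, (Quotient.out x)⁻¹ * g ∈ P ∧ π g ∈ H := by
      intro x
      obtain ⟨⟨p, h⟩, hph⟩ := hH.2 (π (Quotient.out x))
      have hph' : (p : G ⧸ U) * (h : G ⧸ U) = π (Quotient.out x) := hph
      obtain ⟨g, hg⟩ := hsurj (h : G ⧸ U)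
      refine ⟨g, ?_, by rw [hg]; exact h.2⟩
      have h1 : π ((Quotient.out x) * g⁻¹) ∈ P.map π := by
        rw [map_mul, map_inv, hg, ← hph', mul_inv_cancel_right]
        exact p.2
      have h3 : (Quotient.out x) * g⁻¹ ∈ P := (hmP _).2 h1
      have h4 : g * (Quotient.out x)⁻¹ ∈ P := by
        have := P.inv_mem h3
        rwa [mul_inv_rev, inv_inv] at this
      exact hP.mem_comm h4
    choose t ht1 ht2 using hlift
    obtain ⟨σ, hσ⟩ := hsurj s
    have hmkt : ∀ x : G ⧸ P, (QuotientGroup.mk' P) (t x) = x := by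
      intro x
      have h1 : (QuotientGroup.mk' P) (Quotient.out x) = (QuotientGroup.mk' P) (t x) :=
        QuotientGroup.eq.2 (ht1 x)
      rw [← h1]
      exact Quotient.out_eq x
    refine ⟨(t, σ), ht1, ?_, ?_, ?_, ?_⟩
    · intro x x'
      have h1 : π (t (x * x') * (t x * t x')⁻¹) ∈ H := by
        rw [map_mul, map_inv, map_mul]
        exact H.mul_mem (ht2 _) (H.inv_mem (H.mul_mem (ht2 _) (ht2 _)))
      have h3 : t (x * x') * (t x * t x')⁻¹ ∈ P := by
        rw [hkP, map_mul, map_inv, map_mul, hmkt, hmkt, hmkt, mul_inv_cancel]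
      have h4 : π (t (x * x') * (t x * t x')⁻¹) ∈ P.map π := Subgroup.mem_map_of_mem π h3
      have h5 : π (t (x * x') * (t x * t x')⁻¹) = 1 := by
        have := hH.disjoint
        exact (Subgroup.disjoint_def.1 this) h4 h1
      show t (x * x') * (t x * t x')⁻¹ ∈ U
      rw [← hker]
      exact h5
    · show σ ∈ P
      rw [hmP, hσ]
      exact hsP
    · show σ ∉ D
      intro h
      apply hsD
      rw [← hσ]
      exact Subgroup.mem_map_of_mem π h
    · intro x
      show (t x * σ) * (σ * t x)⁻¹ ∈ U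
      rw [← hker, MonoidHom.mem_ker, map_mul, map_inv, map_mul, map_mul, hσ, hcomm _ (ht2 x),
        mul_inv_cancel]
  obtain ⟨⟨t, σ⟩, hy⟩ := IsCompact.nonempty_iInter_of_directed_nonempty_isCompact_isClosed C hdir
    hne (fun U => (hCclosed U).isCompact) hCclosed
  rw [Set.mem_iInter] at hy
  have htriv : ∀ g : G, (∀ U : I, g ∈ U.1) → g = 1 := by
    intro g hg
    by_contra hg1
    haveI : T2Space G := inferInstance
    have hW : IsOpen ({g}ᶜ ∩ (D : Set G)) := isOpen_compl_singleton.inter hDo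
    obtain ⟨N, hNsub⟩ := ProfiniteGrp.exist_openNormalSubgroup_sub_open_nhds_of_one hW
      ⟨fun h => hg1 (Set.mem_singleton_iff.1 h).symm, D.one_mem⟩
    have := hg ⟨N.toSubgroup, N.isNormal', N.isOpen', fun x hx => (hNsub hx).2⟩
    exact (hNsub this).1 rfl
  obtain ⟨b1, -, b3, b4, -⟩ := hy ⟨D, hD, hDo, le_rfl⟩
  have hmul : ∀ x x' : G ⧸ P, t (x * x') = t x * t x' := by
    intro x x'
    exact mul_inv_eq_one.1 (htriv _ fun U => (hy U).2.1 x x')
  have hcom : ∀ x : G ⧸ P, t x * σ = σ * t x := by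
    intro x
    exact mul_inv_eq_one.1 (htriv _ fun U => (hy U).2.2.2.2 x)
  let T : (G ⧸ P) →* G := MonoidHom.mk' t hmul
  have hmkt : ∀ x : G ⧸ P, (QuotientGroup.mk' P) (t x) = x := by
    intro x
    have h1 : (QuotientGroup.mk' P) (Quotient.out x) = (QuotientGroup.mk' P) (t x) :=
      QuotientGroup.eq.2 (b1 x)
    rw [← h1]
    exact Quotient.out_eq x
  refine ⟨T.range, σ, ?_, ?_, b3, b4, ?_⟩
  · rw [eq_bot_iff]
    rintro _ ⟨⟨x, rfl⟩, hx⟩
    have hx' : t x ∈ P := hx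
    have h1 : (QuotientGroup.mk' P) (t x) = 1 := by
      rw [← MonoidHom.mem_ker, QuotientGroup.ker_mk']
      exact hx'
    rw [hmkt] at h1
    rw [h1, map_one]
    exact Subgroup.mem_bot.2 rfl
  · intro g
    refine ⟨T ((QuotientGroup.mk' P) g), ⟨_, rfl⟩, g * (T ((QuotientGroup.mk' P) g))⁻¹, ?_, by group⟩
    rw [hkP, map_mul, map_inv]
    show (QuotientGroup.mk' P) g * ((QuotientGroup.mk' P) (t ((QuotientGroup.mk' P) g)))⁻¹ = 1
    rw [hmkt, mul_inv_cancel]
  · rintro _ ⟨x, rfl⟩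
    exact hcom x

end Pool.Agent.W462.MZSZ
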